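import Pool.Agent.H804.Gap45

/-!
# Consecutive primes whose difference is a small multiple of six, between consecutive cubes

For every `ε > 0` and all large `N` one difference `d = 6 k`, `1 ≤ k ≤ 73`, has the following property: for at
least `N ^ (1 - ε)` of the `n ≤ N` there are at least `n ^ (2 - ε)` pairs of consecutive primes `p, p + 6 k`
between `n ^ 3` and `(n + 1) ^ 3`. For `k = 1` these are the sexy primes of the question. (The trivial upper
bounds are `N` and `3 n ^ 2 + 3 n`.)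

The input is the theorem `DHL[45, 2]` of the starting files (`Pool.Agent.Y826.ZC`). It is applied to the
multiples `6 h` of the elements `h` of a narrow set of 45 integers, `0 ≤ h ≤ 73`, which misses a residue class
modulo every prime `p ≥ 5` (such a set is narrower than the sets with diameter at least 212 that miss a class
modulo every prime).
-/

set_option autoImplicit false

open Finset Filter

namespace Pool.Agent.Results.MP_5628fe_nt.MultiplesOfSix

open Pool.Agent.H804.Powers Pool.Agent.H804.Gap45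

/-- The number of the pairs `(p, p + d)` of consecutive primes with `n ^ 3 < p` and `p + d < (n + 1) ^ 3`.
(`consecutive 6 n` is the `S(n)` of the question.) -/
noncomputable def consecutive (d n : ℕ) : ℕ :=
  {p : ℕ | p.Prime ∧ (p + d).Prime ∧ (∀ r : ℕ, p < r → r < p + d → ¬ r.Prime) ∧
    n ^ 3 < p ∧ p + d < (n + 1) ^ 3}.ncard

/-- a narrow set which misses a residue class modulo every prime `p ≥ 5` -/
def tup : Fin 45 → ℕ := ![0, 1, 2, 3, 5, 6, 7, 8, 10, 13, 15, 16, 17, 21, 22, 23, 26, 27, 28, 30, 33, 35, 36,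
  38, 40, 41, 43, 45, 47, 48, 51, 52, 55, 56, 57, 58, 61, 62, 65, 66, 68, 70, 71, 72, 73]

lemma tup_le (i : Fin 45) : tup i ≤ 73 := by
  fin_cases i <;> decide

lemma tup_inj : Function.Injective tup := by decide

lemma tup_small (p : ℕ) (hp : p.Prime) (h5 : 5 ≤ p) (h : p < 46) : ∃ a : ℕ, ∀ i, ¬ p ∣ a + tup i := by
  interval_cases p <;> first
    | exact absurd hp (by decide)
    | exact ⟨0, by decide⟩
    | exact ⟨1, by decide⟩
    | exact ⟨2, by decide⟩
    | exact ⟨3, by decide⟩
    | exact ⟨4, by decide⟩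
    | exact ⟨5, by decide⟩
    | exact ⟨6, by decide⟩
    | exact ⟨7, by decide⟩
    | exact ⟨8, by decide⟩
    | exact ⟨9, by decide⟩
    | exact ⟨10, by decide⟩
    | exact ⟨11, by decide⟩
    | exact ⟨12, by decide⟩
    | exact ⟨13, by decide⟩
    | exact ⟨14, by decide⟩
    | exact ⟨15, by decide⟩
    | exact ⟨16, by decide⟩
    | exact ⟨17, by decide⟩
    | exact ⟨18, by decide⟩
    | exact ⟨19, by decide⟩
    | exact ⟨20, by decide⟩
    | exact ⟨21, by decide⟩
    | exact ⟨22, by decide⟩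
    | exact ⟨23, by decide⟩
    | exact ⟨24, by decide⟩
    | exact ⟨25, by decide⟩
    | exact ⟨26, by decide⟩
    | exact ⟨27, by decide⟩
    | exact ⟨28, by decide⟩
    | exact ⟨29, by decide⟩
    | exact ⟨30, by decide⟩
    | exact ⟨31, by decide⟩
    | exact ⟨32, by decide⟩
    | exact ⟨33, by decide⟩
    | exact ⟨34, by decide⟩
    | exact ⟨35, by decide⟩
    | exact ⟨36, by decide⟩
    | exact ⟨37, by decide⟩
    | exact ⟨38, by decide⟩
    | exact ⟨39, by decide⟩
    | exact ⟨40, by decide⟩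
    | exact ⟨41, by decide⟩
    | exact ⟨42, by decide⟩

lemma tup_big (p : ℕ) (hp : p.Prime) (h : 46 ≤ p) : ∃ a : ℕ, ∀ i, ¬ p ∣ a + tup i := by
  have : NeZero p := ⟨hp.ne_zero⟩
  set S : Finset (ZMod p) := (Finset.univ : Finset (Fin 45)).image (fun i => -(tup i : ZMod p)) with hS
  have hcard : S.card < (Finset.univ : Finset (ZMod p)).card := by
    rw [Finset.card_univ, ZMod.card]
    refine lt_of_le_of_lt Finset.card_image_le ?_
    rw [Finset.card_univ, Fintype.card_fin]
    omega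
  obtain ⟨z, -, hz⟩ := Finset.exists_mem_notMem_of_card_lt_card hcard
  refine ⟨z.val, fun i hi => hz ?_⟩
  rw [hS, Finset.mem_image]
  refine ⟨i, Finset.mem_univ _, ?_⟩
  have h1 : ((z.val + tup i : ℕ) : ZMod p) = 0 := (ZMod.natCast_eq_zero_iff _ _).mpr hi
  push_cast at h1
  rw [ZMod.natCast_zmod_val] at h1
  exact (eq_neg_of_add_eq_zero_left h1).symm

lemma tup_adm (p : ℕ) (hp : p.Prime) : ∃ r : ℤ, ∀ i, ¬ (p : ℤ) ∣ r + ((6 * tup i : ℕ) : ℤ) := by
  by_cases h6 : p ∣ 6
  · refine ⟨1, fun i hi => ?_⟩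
    have h1 : (p : ℤ) ∣ ((6 * tup i : ℕ) : ℤ) := by exact_mod_cast Dvd.dvd.mul_right h6 _
    have h2 : (p : ℤ) ∣ 1 := (Int.dvd_iff_dvd_of_dvd_add hi).mpr h1
    have h3 : p ∣ 1 := by exact_mod_cast h2
    exact hp.one_lt.ne' (Nat.dvd_one.mp h3)
  · have h5 : 5 ≤ p := by
      by_contra hlt
      push Not at hlt
      have h2 := hp.two_le
      interval_cases p
      · exact h6 (by decide)
      · exact h6 (by decide)
      · exact absurd hp (by decide)
    obtain ⟨a, ha⟩ : ∃ a : ℕ, ∀ i, ¬ p ∣ a + tup i := by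
      rcases Nat.lt_or_ge p 46 with h | h
      · exact tup_small p hp h5 h
      · exact tup_big p hp h
    refine ⟨6 * (a : ℤ), fun i hi => ?_⟩
    have h1 : (p : ℤ) ∣ ((6 * (a + tup i) : ℕ) : ℤ) := by
      push_cast
      push_cast at hi
      rw [mul_add]
      exact hi
    have h2 : p ∣ 6 * (a + tup i) := by exact_mod_cast h1
    rcases hp.dvd_mul.mp h2 with h3 | h3
    · exact h6 h3
    · exact ha i h3

open Classical in
/-- For every `ε > 0` and all large `N` there is `k` with `1 ≤ k ≤ 73` such that for at least `N ^ (1 - ε)` of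
the `n ≤ N` there are at least `n ^ (2 - ε)` pairs of consecutive primes `p, p + 6 k` with `n ^ 3 < p` and
`p + 6 k < (n + 1) ^ 3`. -/
theorem result (ε : ℝ) (hε : 0 < ε) : ∀ᶠ N : ℕ in atTop, ∃ k : ℕ, 1 ≤ k ∧ k ≤ 73 ∧
    (N : ℝ) ^ (1 - ε) ≤
      (((Icc 1 N).filter (fun n : ℕ => (n : ℝ) ^ (2 - ε) ≤ (consecutive (6 * k) n : ℝ))).card : ℝ) := by
  filter_upwards [gaps 2 (by norm_num) (fun i => 6 * tup i)
    (fun i j h => tup_inj (by have h' : 6 * tup i = 6 * tup j := h; omega)) tup_adm ε hε] with N hN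
  obtain ⟨i, j, hij, h⟩ := hN
  have hij' : tup i < tup j := by omega
  have hj := tup_le j
  have hd : 6 * tup j - 6 * tup i = 6 * (tup j - tup i) := by omega
  refine ⟨tup j - tup i, by omega, by omega, ?_⟩
  rw [hd] at h
  refine h.trans ?_
  rw [Nat.cast_le]
  apply card_le_card
  intro n hn
  obtain ⟨h1, h2⟩ := mem_filter.1 hn
  refine mem_filter.2 ⟨h1, ?_⟩
  have h3 : ((2 : ℕ) : ℝ) - ε = 2 - ε := by norm_num
  rw [h3] at h2
  refine h2.trans ?_
  rw [Nat.cast_le]
  apply Set.ncard_le_ncard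
  · rintro p ⟨⟨h5, h6, h7⟩, h8, h9⟩
    exact ⟨h5, h6, h7, h8, h9⟩
  · apply (Set.finite_lt_nat ((n + 1) ^ 3)).subset
    rintro p ⟨-, -, -, -, h6⟩
    exact lt_of_le_of_lt (Nat.le_add_right _ _) h6

end Pool.Agent.Results.MP_5628fe_nt.MultiplesOfSix
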